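import Pool.Agent.Y134.UL.Defs

/-!
# The generalized Tate conjecture from one submodule: definitions
-/

set_option autoImplicit false

universe u

namespace Pool.Agent.Y134.GT

open Polynomial Pool.Agent.TH125.Gal Pool.Agent.Y134.TF Pool.Agent.Y134.UL

section
variable {K A : Type} [Field K] [Ring A] [Algebra K A] {Γ : Type} [Group Γ]

/-- The operator `χ(g) ^ (- ν) g` is integral on the subspace `U`: it satisfies a monic equation with
integral coefficients (for a Frobenius element `g` of norm `q`, `χ(g) = q`, this means that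
the eigenvalues of `g` on `U` are algebraic integers divisible by `q ^ ν`). -/
def IntegralOn (χ : Γ →* Kˣ) (act : Γ →* (A ≃ₐ[K] A)) (g : Γ) (ν : ℕ) (U : Submodule K A) : Prop :=
  ∃ f : ℤ[X], f.Monic ∧ ∀ x ∈ U, aeval (((χ g : K) ^ ν)⁻¹ • (act g).toLinearMap) f x = 0

/-- The sum of all subspaces `U` of the cohomology `gr i` in the degree `i` which are stable under `Γ`
and such that `U(ν)` is entire, for the set `Fr` of Frobenius elements: `IntegralOn` holds for all
elements of `Fr`. -/
def galConiveau (χ : Γ →* Kˣ) (act : Γ →* (A ≃ₐ[K] A)) (Fr : Set Γ) (gr : ℕ → Submodule K A)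
    (i ν : ℕ) : Submodule K A :=
  sSup {U | U ≤ gr i ∧ (∀ g, ∀ x ∈ U, act g x ∈ U) ∧ ∀ g ∈ Fr, IntegralOn χ act g ν U}

/-- The representation `F` of `Γ` over the extension `K₀` of `K` is the subspace `P` of `A` with the
action of `Γ`; `j` is the `K`-linear inclusion. -/
structure IsScalarExt {K₀ : Type} [Field K₀] [Algebra K K₀] (P : Submodule K A)
    (act : Γ →* (A ≃ₐ[K] A)) (F : UL.Rep K₀ Γ) (j : F.V →+ A) : Prop where
  smul : ∀ (a : K) (v : F.V), j (algebraMap K K₀ a • v) = a • j v
  injective : Function.Injective j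
  mem : ∀ v, j v ∈ P
  surj : ∀ x ∈ P, ∃ v, j v = x
  equivariant : ∀ g v, act g (j v) = j (F.rep g v)

/-- The representation `ρ` of `Γ` preserves the hermitian or skew hermitian form `h` up to the
multiplier `μ`, and it has a lattice `Λ` as in `HasRadical` and `OneSub`, for the whole group `Γ`. -/
structure IsOneSubM {K₀ : Type} [Field K₀] {V : Type} [AddCommGroup V] [Module K₀ V]
    (ρ : Representation K₀ Γ V) (R : Subring K₀) (l : K₀) (τ : K₀ →+* K₀) (h : V → V → K₀)
    (μ : Γ → K₀) (Λ : AddSubgroup V) (r : V) : Prop where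
  loc : IsLoc R l τ
  herm : IsHerm τ h
  mult : ∀ g, μ g ≠ 0
  inv : ∀ g x y, h (ρ g x) (ρ g y) = μ g * h x y
  lat : IsLat R l Λ
  radical : HasRadical R l Λ h r
  one : OneSub R l ρ Λ r ⊤

/-- The group `Γ` acts on the cohomology algebra `A` of a variety of dimension `n` (with the degrees
`gr`, the orientation `tr` and the sets `C j` of the classes of cycles of codimension `j`) like a
Galois group; `A` is the sum of a space spanned by classes of cycles and of the subspace `P` of the
cohomology in the degree `n`, and these spaces are orthogonal (for instance `P` is the primitive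
cohomology of a cyclic covering of projective space); `P` is a representation over an extension `K₀`
of `K` with the property `IsOneSubM`; and for some Frobenius element `g` in `Fr`, whose norm `χ(g)` is a
positive integer, the operator `χ(g)⁻¹ g` is not integral on `P`. -/
structure IsLevel (χ : Γ →* Kˣ) (gr : ℕ → Submodule K A) (n : ℕ) (tr : A →ₗ[K] K)
    (C : ℕ → Set A) (act : Γ →* (A ≃ₐ[K] A)) (P : Submodule K A) (Fr : Set Γ) : Prop where
  galois : IsGaloisAct χ gr n tr C act
  middle : P ≤ gr n
  sum : OrthSum tr (Submodule.span K (⋃ j, C j)) P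
  str : ∃ (K₀ : Type) (_ : Field K₀) (_ : Algebra K K₀) (F : UL.Rep K₀ Γ) (j : F.V →+ A),
    IsScalarExt P act F j ∧ ∃ R l τ h μ Λ r, IsOneSubM F.rep R l τ h μ Λ r
  level : ∃ g ∈ Fr, (∃ N : ℕ, (χ g : K) = N) ∧ ¬ IntegralOn χ act g 1 P

end

open Pool.Agent.H914 Pool.Agent.H914.VarClass.Obj Pool.Agent.H914.WeilCohomology
  Pool.Agent.H281R3.HT

variable {k : Type u} [Field k] {𝒱 : VarClass k} {ops : CycleOps 𝒱}
  {W : WeilCohomology.{u, 0} ops} {Γ : Type} [Group Γ]

/-- The variety `X` has the property `IsLevel`. -/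
def Level (χ : Γ →* W.Kˣ) (X : PVar W Γ) (Fr : Set Γ) : Prop :=
  IsLevel χ (W.gr X.X) X.X.dim (W.tr X.X) (algClasses W X.X) X.act X.P Fr

/-- The filtration `galConiveau` on the cohomology of the variety `X`. -/
def coniveau (χ : Γ →* W.Kˣ) (X : GVar W Γ) (Fr : Set Γ) (i ν : ℕ) : Submodule W.K (W.H X.X) :=
  galConiveau χ X.act Fr (W.gr X.X) i ν

end Pool.Agent.Y134.GT
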