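import Pool.Agent.Y134.UL.Lat

/-!
# Irreducibility from the reduction of a lattice: forms with multiplier
-/

set_option autoImplicit false

namespace Pool.Agent.Y134.GT

open Module Pool.Agent.Y134.UL

section
variable {K₀ : Type} [Field K₀] {R : Subring K₀} {l : K₀} {τ : K₀ →+* K₀}
  {V : Type} [AddCommGroup V] [Module K₀ V] {Λ : AddSubgroup V} {h : V → V → K₀} {r : V}

section
variable (hR : IsLoc R l τ) (hΛ : IsLat R l Λ) (hh : IsHerm τ h) (hr : HasRadical R l Λ h r)

variable {Γ : Type} [Group Γ] {ρ : Representation K₀ Γ V} {Γ' : Subgroup Γ}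

include hR hΛ hh hr in
/-- A stable line in the class of `r` must be the whole space. -/
lemma line_top {μ : Γ → K₀} (hμ : ∀ g, μ g ≠ 0)
    (hinv : ∀ g x y, h (ρ g x) (ρ g y) = μ g * h x y) (hS : OneSub R l ρ Λ r Γ')
    {U : Submodule K₀ V} (hst : ∀ g ∈ Γ', ∀ x ∈ U, ρ g x ∈ U) (hU : U ≠ ⊥)
    (hker : ∀ x ∈ Λ, x ∈ U → ∃ c ∈ R, ∃ y ∈ Λ, x = c • r + l • y) : U = ⊤ := by
  have hr0 : r ≠ 0 := by
    intro h0
    obtain ⟨x, hx, hxU, hprim⟩ := exists_primitive hR hΛ hU
    obtain ⟨c, -, y, hy, hxy⟩ := hker x hx hxU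
    exact hprim y hy (by rw [hxy, h0, smul_zero, zero_add])
  obtain ⟨e, heΛ, he, hes, hline⟩ := exists_line hR hΛ hh hr hr0 hU hker
  obtain ⟨u, hu, hee⟩ := form_radical hR hh hr hr0 hes hes
  have hee0 : h e e ≠ 0 := by
    rw [hee]
    exact mul_ne_zero hR.ne hu.2.2
  -- the values of the form with `e`
  have hval : ∀ x ∈ Λ, ∃ a ∈ R, h x e = a * h e e := by
    intro x hx
    obtain ⟨c, hc, s, hs, hcs⟩ := hes
    obtain ⟨d, hd, hxr⟩ := radical_r' hR hh hr x hx
    obtain ⟨m, hm, hlm⟩ := hR.map_l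
    have h1 : h x e = l * (τ c * d + m * h x s) := by
      rw [hcs, add_right hh, smul_right hh, smul_right hh, hxr, hlm]
      ring
    refine ⟨(τ c * d + m * h x s) * u⁻¹, ?_, ?_⟩
    · exact R.mul_mem (R.add_mem (R.mul_mem (hc.map hR).1 hd)
        (R.mul_mem hm (hr.integral x hx s hs))) hu.2.1
    · rw [h1, hee]
      field_simp [hu.2.2]
  obtain ⟨w, hw, hre⟩ := form_radical hR hh hr hr0 (x := r) (y := e)
    ⟨1, ⟨R.one_mem, by rw [inv_one]; exact R.one_mem, one_ne_zero⟩, 0, Λ.zero_mem, by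
      rw [one_smul, smul_zero, add_zero]⟩ hes
  have hre' : h r e = (w * u⁻¹) * h e e := by
    rw [hre, hee]
    field_simp [hu.2.2]
  have hwu : IsU R (w * u⁻¹) := hw.mul ⟨hu.2.1, by rw [inv_inv]; exact hu.1, inv_ne_zero hu.2.2⟩
  -- the complement
  let M : AddSubgroup V :=
    { carrier := {x | x ∈ Λ ∧ ∃ a ∈ R, h x e = (l * a) * h e e}
      add_mem' := by
        rintro x y ⟨hx, a, ha, hxa⟩ ⟨hy, b, hb, hyb⟩
        refine ⟨Λ.add_mem hx hy, a + b, R.add_mem ha hb, ?_⟩
        rw [hh.add_left, hxa, hyb]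
        ring
      zero_mem' := ⟨Λ.zero_mem, 0, R.zero_mem, by rw [zero_left hh]; ring⟩
      neg_mem' := by
        rintro x ⟨hx, a, ha, hxa⟩
        refine ⟨Λ.neg_mem hx, -a, R.neg_mem ha, ?_⟩
        rw [← neg_one_smul K₀ x, hh.smul_left, hxa]
        ring }
  have hrM : r ∉ M := by
    rintro ⟨-, a, ha, hra⟩
    rw [hre'] at hra
    exact not_isU hR hwu ha (mul_right_cancel₀ hee0 hra)
  have hdec : ∀ x ∈ Λ, ∃ c ∈ R, ∃ y ∈ M, x = c • r + y := by
    intro x hx
    obtain ⟨a, ha, hxa⟩ := hval x hx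
    have hc : a * (w * u⁻¹)⁻¹ ∈ R := R.mul_mem ha hwu.2.1
    refine ⟨a * (w * u⁻¹)⁻¹, hc, x - (a * (w * u⁻¹)⁻¹) • r, ?_, by abel⟩
    refine ⟨Λ.sub_mem hx (hΛ.smul_mem _ hc r hr.mem), 0, R.zero_mem, ?_⟩
    rw [sub_left hh, hh.smul_left, hxa, hre', mul_zero, zero_mul, ← mul_assoc,
      inv_mul_cancel_right₀ hwu.2.2, sub_self]
  rcases hS.only M (fun x hx => hx.1) (by
      rintro c hc x ⟨hx, a, ha, hxa⟩
      refine ⟨hΛ.smul_mem c hc x hx, c * a, R.mul_mem hc ha, ?_⟩
      rw [hh.smul_left, hxa]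
      ring) (by
      intro x hx
      obtain ⟨a, ha, hxa⟩ := hval x hx
      refine ⟨hΛ.smul_mem l hR.mem x hx, a, ha, ?_⟩
      rw [hh.smul_left, hxa]
      ring) (by
      rintro g hg x ⟨hx, a, ha, hxa⟩
      refine ⟨hS.stable g x hx, ?_⟩
      obtain ⟨t, ht⟩ := hline _ (hst g⁻¹ (Γ'.inv_mem hg) e he)
      obtain ⟨s, hs⟩ : ∃ s : K₀, s = (μ g⁻¹)⁻¹ * τ t := ⟨_, rfl⟩
      have h1 : ∀ y : V, h (ρ g y) e = s * h y e := by
        intro y
        have h2 := hinv g⁻¹ (ρ g y) e
        rw [← Module.End.mul_apply, ← map_mul, inv_mul_cancel, map_one, Module.End.one_apply, ht,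
          smul_right hh] at h2
        rw [hs, mul_assoc, h2, inv_mul_cancel_left₀ (hμ _)]
      have h3 : s ∈ R := by
        obtain ⟨a', ha', hra'⟩ := hval _ (hS.stable g r hr.mem)
        rw [h1, hre', ← mul_assoc] at hra'
        have h4 := mul_right_cancel₀ hee0 hra'
        have h5 : s = a' * (w * u⁻¹)⁻¹ := by
          rw [← h4, mul_inv_cancel_right₀ hwu.2.2]
        rw [h5]
        exact R.mul_mem ha' hwu.2.1
      refine ⟨s * a, R.mul_mem h3 ha, ?_⟩
      rw [h1, hxa]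
      ring) with h1 | ⟨h1, -⟩ | h1
  · -- the lattice is generated by `r`
    have htop : ∀ x ∈ Λ, x ∈ (⊤ : Submodule K₀ V) → ∃ c ∈ R, ∃ y ∈ Λ, x = c • r + l • y := by
      intro x hx _
      obtain ⟨c, hc, y, hy, rfl⟩ := hdec x hx
      obtain ⟨z, hz, rfl⟩ := h1 y hy
      exact ⟨c, hc, z, hz, rfl⟩
    have hne : (⊤ : Submodule K₀ V) ≠ ⊥ := fun h0 => hU (by
      rw [eq_bot_iff, ← h0]
      exact le_top)
    obtain ⟨e', -, -, -, hline'⟩ := exists_line hR hΛ hh hr hr0 hne htop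
    rw [eq_top_iff]
    intro x _
    obtain ⟨t, rfl⟩ := hline' x Submodule.mem_top
    obtain ⟨t', ht'⟩ := hline' e Submodule.mem_top
    have ht0 : t' ≠ 0 := by
      rintro rfl
      rw [zero_smul] at ht'
      exact hee0 (by rw [ht', zero_left hh])
    have h2 : e' = t'⁻¹ • e := by rw [ht', smul_smul, inv_mul_cancel₀ ht0, one_smul]
    rw [h2]
    exact U.smul_mem _ (U.smul_mem _ he)
  · exact (hrM h1).elim
  · exact (hrM (h1 hr.mem)).elim

/-- **Irreducibility.** -/
theorem irreducible_of_oneSub [FiniteDimensional K₀ V] (hR : IsLoc R l τ) (hΛ : IsLat R l Λ)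
    (hh : IsHerm τ h) (hr : HasRadical R l Λ h r) {μ : Γ → K₀} (hμ : ∀ g, μ g ≠ 0)
    (hinv : ∀ g x y, h (ρ g x) (ρ g y) = μ g * h x y)
    (hS : OneSub R l ρ Λ r Γ') {U : Submodule K₀ V} (hU : ∀ g ∈ Γ', ∀ x ∈ U, ρ g x ∈ U) :
    U = ⊥ ∨ U = ⊤ := by
  by_cases hU0 : U = ⊥
  · exact Or.inl hU0
  right
  -- the reduction of `U`
  let M : AddSubgroup V :=
    { carrier := {z | ∃ x ∈ Λ, x ∈ U ∧ ∃ y ∈ Λ, z = x + l • y}
      add_mem' := by
        rintro _ _ ⟨x, hx, hxU, y, hy, rfl⟩ ⟨x', hx', hxU', y', hy', rfl⟩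
        exact ⟨x + x', Λ.add_mem hx hx', U.add_mem hxU hxU', y + y', Λ.add_mem hy hy', by
          rw [smul_add]; abel⟩
      zero_mem' := ⟨0, Λ.zero_mem, U.zero_mem, 0, Λ.zero_mem, by simp⟩
      neg_mem' := by
        rintro _ ⟨x, hx, hxU, y, hy, rfl⟩
        exact ⟨-x, Λ.neg_mem hx, U.neg_mem hxU, -y, Λ.neg_mem hy, by rw [smul_neg]; abel⟩ }
  have hUM : ∀ x ∈ Λ, x ∈ U → x ∈ M := fun x hx hxU => ⟨x, hx, hxU, 0, Λ.zero_mem, by simp⟩
  rcases hS.only M (by
      rintro _ ⟨x, hx, -, y, hy, rfl⟩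
      exact Λ.add_mem hx (hΛ.smul_mem l hR.mem y hy)) (by
      rintro c hc _ ⟨x, hx, hxU, y, hy, rfl⟩
      exact ⟨c • x, hΛ.smul_mem c hc x hx, U.smul_mem c hxU, c • y, hΛ.smul_mem c hc y hy, by
        rw [smul_add, smul_comm]⟩) (by
      intro x hx
      exact ⟨0, Λ.zero_mem, U.zero_mem, x, hx, by rw [zero_add]⟩) (by
      rintro g hg _ ⟨x, hx, hxU, y, hy, rfl⟩
      exact ⟨ρ g x, hS.stable g x hx, hU g hg x hxU, ρ g y, hS.stable g y hy, by
        rw [map_add, map_smul]⟩) with h1 | ⟨-, h1⟩ | h1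
  · exfalso
    obtain ⟨x, hx, hxU, hprim⟩ := exists_primitive hR hΛ hU0
    obtain ⟨y, hy, hxy⟩ := h1 x (hUM x hx hxU)
    exact hprim y hy hxy
  · exact line_top hR hΛ hh hr hμ hinv hS hU hU0 fun x hx hxU => h1 x (hUM x hx hxU)
  · -- the orthogonal complement
    let W : Submodule K₀ V :=
      { carrier := {x | ∀ u ∈ U, h x u = 0}
        add_mem' := by
          intro x y hx hy u hu
          rw [hh.add_left, hx u hu, hy u hu, add_zero]
        zero_mem' := fun u _ => zero_left hh u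
        smul_mem' := by
          intro t x hx u hu
          rw [hh.smul_left, hx u hu, mul_zero] }
    have hWst : ∀ g ∈ Γ', ∀ x ∈ W, ρ g x ∈ W := by
      intro g hg x hx u hu
      have h2 : u = ρ g (ρ g⁻¹ u) := by
        rw [← Module.End.mul_apply, ← map_mul, mul_inv_cancel, map_one, Module.End.one_apply]
      rw [h2, hinv, hx _ (hU _ (Γ'.inv_mem hg) u hu), mul_zero]
    have hWker : ∀ x ∈ Λ, x ∈ W → ∃ c ∈ R, ∃ y ∈ Λ, x = c • r + l • y := by
      intro x hx hxW
      refine hr.radical x hx fun y hy => ?_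
      obtain ⟨y', hy', hyU, z, hz, rfl⟩ := h1 hy
      obtain ⟨m, hm, hlm⟩ := hR.map_l
      refine ⟨m * h x z, R.mul_mem hm (hr.integral x hx z hz), ?_⟩
      rw [add_right hh, hxW y' hyU, zero_add, smul_right hh, hlm]
      ring
    by_cases hW0 : W = ⊥
    · -- dimension
      let f : V →ₗ[K₀] (Fin (finrank K₀ U) → K₀) :=
        { toFun := fun x i => h x (finBasis K₀ U i)
          map_add' := fun x y => funext fun i => hh.add_left _ _ _
          map_smul' := fun c x => funext fun i => hh.smul_left _ _ _ }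
      have hf : Function.Injective f := by
        rw [injective_iff_map_eq_zero]
        intro x hx
        have hxW : x ∈ W := by
          intro u hu
          have h2 : ∀ i, h (finBasis K₀ U i : V) x = 0 := fun i => symm_zero hh (congrFun hx i)
          apply symm_zero hh
          have h3 : u = ∑ i, (finBasis K₀ U).repr ⟨u, hu⟩ i • (finBasis K₀ U i : V) := by
            have h4 := congrArg Subtype.val ((finBasis K₀ U).sum_repr ⟨u, hu⟩)
            rw [Submodule.coe_sum] at h4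
            exact h4.symm
          have h5 : ∀ s : Finset (Fin (finrank K₀ U)),
              h (∑ i ∈ s, (finBasis K₀ U).repr ⟨u, hu⟩ i • (finBasis K₀ U i : V)) x = 0 := by
            classical
            intro s
            induction s using Finset.induction_on with
            | empty => rw [Finset.sum_empty, zero_left hh]
            | insert i s hi ih =>
              rw [Finset.sum_insert hi, hh.add_left, hh.smul_left, h2, mul_zero, ih, add_zero]
          rw [h3]
          exact h5 _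
        rw [hW0] at hxW
        exact (Submodule.mem_bot K₀).1 hxW
      have h2 := LinearMap.finrank_le_finrank_of_injective hf
      rw [finrank_fin_fun] at h2
      exact Submodule.eq_top_of_finrank_eq (le_antisymm (Submodule.finrank_le U) h2)
    · exfalso
      have hWtop := line_top hR hΛ hh hr hμ hinv hS hWst hW0 hWker
      apply hU0
      rw [eq_bot_iff]
      intro u hu
      rw [Submodule.mem_bot]
      apply hh.nondeg
      intro y
      apply symm_zero hh
      have hy : y ∈ W := by rw [hWtop]; exact Submodule.mem_top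
      exact hy u hu

end

end

end Pool.Agent.Y134.GT
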