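import Pool.Agent.Y134.GT.Defs
import Pool.Agent.Y134.GT.Irr
import Pool.Agent.Y134.TF.Geo

/-!
# The generalized Tate conjecture from one submodule
-/

set_option autoImplicit false

universe u

namespace Pool.Agent.Y134.GT

open Polynomial Module Pool.Agent.Y130 Pool.Agent.TH125.Gal Pool.Agent.TH118.SG
open Pool.Agent.H914 Pool.Agent.H914.VarClass Pool.Agent.H914.VarClass.Obj
  Pool.Agent.H914.WeilCohomology Pool.Agent.H281R3.HT Pool.Agent.W552 Pool.Agent.Y134.TF
  Pool.Agent.Y134.UL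

section
variable {K A : Type} [Field K] [Ring A] [Algebra K A] {Γ : Type} [Group Γ]
  {K₀ : Type} [Field K₀] [Algebra K K₀] {P : Submodule K A} {act : Γ →* (A ≃ₐ[K] A)}
  {F : UL.Rep K₀ Γ} {j : F.V →+ A} {χ : Γ →* Kˣ}

theorem IsScalarExt.stable (h : IsScalarExt P act F j) (g : Γ) : ∀ x ∈ P, act g x ∈ P := by
  intro x hx
  obtain ⟨v, rfl⟩ := h.surj x hx
  rw [h.equivariant]
  exact h.mem _

/-- The polynomials in the operators on `P` and on `F`. -/
theorem aeval_j (h : IsScalarExt P act F j) (g : Γ) (a : K) (f : ℤ[X]) (v : F.V) :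
    aeval (a • (act g).toLinearMap) f (j v) =
      j (aeval (algebraMap K K₀ a • F.rep g) f v) := by
  induction f using Polynomial.induction_on' with
  | add p q hp hq =>
    rw [map_add, map_add, LinearMap.add_apply, LinearMap.add_apply, hp, hq, map_add]
  | monomial n c =>
    rw [aeval_monomial, aeval_monomial, Module.End.mul_apply, Module.End.mul_apply]
    have h1 : ∀ n : ℕ, ((a • (act g).toLinearMap) ^ n) (j v) =
        j (((algebraMap K K₀ a • F.rep g) ^ n) v) := by
      intro n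
      induction n with
      | zero => rfl
      | succ n ih =>
        rw [pow_succ', pow_succ', Module.End.mul_apply, Module.End.mul_apply, ih,
          LinearMap.smul_apply, LinearMap.smul_apply, h.smul]
        congr 1
        exact h.equivariant g _
    rw [h1]
    simp only [algebraMap_int_eq, eq_intCast]
    change ((c : ℤ) : Module.End K A) (j _) = j (((c : ℤ) : Module.End K₀ F.V) _)
    rw [Module.End.intCast_apply, Module.End.intCast_apply, map_zsmul]

/-- Integrality for one twist gives integrality for the smaller twists. -/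
theorem integral_mono (h : IsScalarExt P act F j) {g : Γ} {N : ℕ} (hN : (χ g : K) = N) {ν : ℕ}
    (hν : 1 ≤ ν) {f : ℤ[X]} (hf : f.Monic)
    (h0 : ∀ v : F.V, aeval (algebraMap K K₀ (((χ g : K) ^ ν)⁻¹) • F.rep g) f v = 0) :
    IntegralOn χ act g 1 P := by
  have hχ : (χ g : K) ≠ 0 := Units.ne_zero _
  have h1 : aeval (algebraMap K K₀ (((χ g : K) ^ ν)⁻¹) • F.rep g) f = 0 :=
    LinearMap.ext h0
  have h2 := scaleRoots_aeval_eq_zero (r := (N : ℤ) ^ (ν - 1)) h1
  refine ⟨scaleRoots f ((N : ℤ) ^ (ν - 1)), (monic_scaleRoots_iff _).2 hf, fun x hx => ?_⟩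
  obtain ⟨v, rfl⟩ := h.surj x hx
  rw [aeval_j h]
  have h3 : algebraMap ℤ (Module.End K₀ F.V) ((N : ℤ) ^ (ν - 1)) *
      (algebraMap K K₀ (((χ g : K) ^ ν)⁻¹) • F.rep g) =
      algebraMap K K₀ (((χ g : K) ^ 1)⁻¹) • F.rep g := by
    have h4 : algebraMap ℤ (Module.End K₀ F.V) ((N : ℤ) ^ (ν - 1)) =
        algebraMap K K₀ ((χ g : K) ^ (ν - 1)) • (1 : Module.End K₀ F.V) := by
      rw [hN, ← Algebra.algebraMap_eq_smul_one, map_pow, map_pow, map_pow, map_natCast,
        map_natCast, map_natCast]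
    rw [h4, smul_mul_smul_comm, one_mul, ← map_mul]
    congr 2
    obtain ⟨m, rfl⟩ := Nat.exists_eq_add_of_le hν
    rw [show 1 + m - 1 = m by omega, pow_add, pow_one]
    field_simp
  rw [← h3, h2, LinearMap.zero_apply, map_zero]

/-- The span over the larger field of a stable nonzero subspace is everything. -/
theorem span_top (hirr : ∀ U : Submodule K₀ F.V, (∀ g, ∀ x ∈ U, F.rep g x ∈ U) → U = ⊥ ∨ U = ⊤)
    {S : Set F.V} (hS : ∀ g, ∀ v ∈ S, F.rep g v ∈ S) {v : F.V} (hv : v ∈ S) (hv0 : v ≠ 0) :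
    Submodule.span K₀ S = ⊤ := by
  rcases hirr (Submodule.span K₀ S) (by
    intro g x hx
    induction hx using Submodule.span_induction with
    | mem x hx => exact Submodule.subset_span (hS g x hx)
    | zero => rw [map_zero]; exact Submodule.zero_mem _
    | add x y _ _ hx hy => rw [map_add]; exact Submodule.add_mem _ hx hy
    | smul c x _ hx => rw [map_smul]; exact Submodule.smul_mem _ _ hx) with h | h
  · exfalso
    have h1 : v ∈ Submodule.span K₀ S := Submodule.subset_span hv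
    rw [h] at h1
    exact hv0 ((Submodule.mem_bot K₀).1 h1)
  · exact h

end

variable {k : Type u} [Field k] {𝒱 : VarClass k} {ops : CycleOps 𝒱}
  {W : WeilCohomology.{u, 0} ops} {Γ : Type} [Group Γ]

/-- Polynomials in an operator preserve stable subspaces. -/
lemma aeval_mem {K A : Type} [Field K] [AddCommGroup A] [Module K A] {φ : Module.End K A}
    {U : Submodule K A} (hU : ∀ x ∈ U, φ x ∈ U) (f : ℤ[X]) : ∀ x ∈ U, aeval φ f x ∈ U := by
  intro x hx
  induction f using Polynomial.induction_on' with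
  | add p q hp hq => rw [map_add, LinearMap.add_apply]; exact U.add_mem hp hq
  | monomial n c =>
    rw [aeval_monomial, Module.End.mul_apply]
    have h1 : ∀ n : ℕ, (φ ^ n) x ∈ U := by
      intro n
      induction n with
      | zero => exact hx
      | succ n ih => rw [pow_succ', Module.End.mul_apply]; exact hU _ ih
    simp only [algebraMap_int_eq, eq_intCast]
    rw [Module.End.intCast_apply]
    exact zsmul_mem (h1 n) c

/-- **The generalized Tate conjecture from one submodule.** -/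
theorem coniveau_le {χ : Γ →* W.Kˣ} {X : PVar W Γ} {Fr : Set Γ} (h : Level χ X Fr) (i ν : ℕ)
    (hν : 1 ≤ ν) : coniveau χ X.toGVar Fr i ν ≤ algSpan W X.X := by
  obtain ⟨hG, hP, ⟨A, hA, hAP, ho⟩, ⟨K₀, _, _, F, j, hj, R, l, τ, hf, μ, Λ, r, hM⟩,
    g₀, hg₀, ⟨N, hN⟩, hlev⟩ := h
  have hA' : A ≤ algSpan W X.X := hA
  have hirr : ∀ U : Submodule K₀ F.V, (∀ g, ∀ x ∈ U, F.rep g x ∈ U) → U = ⊥ ∨ U = ⊤ :=
    fun U hU => GT.irreducible_of_oneSub hM.loc hM.lat hM.herm hM.radical hM.mult hM.inv hM.one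
      fun g _ => hU g
  have hnd : ∀ x ∈ X.P, (∀ y ∈ X.P, W.tr X.X (x * y) = 0) → x = 0 := by
    intro x hx h
    apply W.nondeg
    intro y
    have hy : y ∈ A ⊔ X.P := by rw [hAP]; exact Submodule.mem_top
    obtain ⟨a, ha, p, hp, rfl⟩ := Submodule.mem_sup.1 hy
    rw [mul_add, map_add, h p hp, add_zero, ← alg_comm (hA' ha), ho a ha x hx]
  have hAP0 : ∀ x ∈ A, x ∈ X.P → x = 0 := fun x hx hx' => hnd x hx' fun y hy => ho x hx y hy
  have hPst := hj.stable
  have hAst : ∀ g, ∀ a ∈ A, X.act g a ∈ A := by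
    intro g a ha
    have h1 : X.act g a ∈ A ⊔ X.P := by rw [hAP]; exact Submodule.mem_top
    obtain ⟨a', ha', p, hp, hap⟩ := Submodule.mem_sup.1 h1
    have hp0 : p = 0 := by
      apply hnd p hp
      intro y hy
      have h2 : y = X.act g (X.act g⁻¹ y) := by
        rw [← AlgEquiv.mul_apply, ← map_mul, mul_inv_cancel, map_one, AlgEquiv.one_apply]
      have h3 : W.tr X.X ((a' + p) * y) = 0 := by
        rw [hap, h2, ← map_mul, hG.tr_act, ho a ha _ (hPst g⁻¹ y hy), mul_zero]
      rwa [add_mul, map_add, ho a' ha' y hy, zero_add] at h3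
    rw [← hap, hp0, add_zero]
    exact ha'
  refine sSup_le ?_
  rintro U ⟨hUgr, hUst, hUint⟩
  by_contra hcon
  obtain ⟨u, hu, hu'⟩ := Set.not_subset.1 hcon
  have h1 : u ∈ A ⊔ X.P := by rw [hAP]; exact Submodule.mem_top
  obtain ⟨a₀, ha₀, p₀, hp₀, rfl⟩ := Submodule.mem_sup.1 h1
  have hp0 : p₀ ≠ 0 := by
    rintro rfl
    apply hu'
    rw [add_zero]
    exact hA' ha₀
  -- the projection of `U` to `P`
  let S : Set F.V := {v | ∃ a ∈ A, a + j v ∈ U}
  have hS : ∀ g, ∀ v ∈ S, F.rep g v ∈ S := by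
    rintro g v ⟨a, ha, hav⟩
    refine ⟨X.act g a, hAst g a ha, ?_⟩
    rw [← hj.equivariant, ← map_add]
    exact hUst g _ hav
  obtain ⟨v₀, rfl⟩ := hj.surj p₀ hp₀
  have htop := span_top hirr hS (v := v₀) ⟨a₀, ha₀, hu⟩ (by
    rintro rfl
    exact hp0 (map_zero j))
  obtain ⟨f, hf1, hf2⟩ := hUint g₀ hg₀
  apply hlev
  refine integral_mono hj hN hν hf1 ?_
  have key : ∀ v ∈ S, aeval (algebraMap W.K K₀ (((χ g₀ : W.K) ^ ν)⁻¹) • F.rep g₀) f v = 0 := by
    rintro v ⟨a, ha, hav⟩
    apply hj.injective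
    rw [map_zero, ← aeval_j hj]
    have h2 := hf2 _ hav
    rw [map_add] at h2
    have h3 : aeval (((χ g₀ : W.K) ^ ν)⁻¹ • (X.act g₀).toLinearMap) f a ∈ A :=
      aeval_mem (fun x hx => A.smul_mem _ (hAst g₀ x hx)) f a ha
    have h4 : aeval (((χ g₀ : W.K) ^ ν)⁻¹ • (X.act g₀).toLinearMap) f (j v) ∈ X.P :=
      aeval_mem (fun x hx => X.P.smul_mem _ (hPst g₀ x hx)) f _ (hj.mem v)
    apply hAP0 _ ?_ h4
    have h5 : aeval (((χ g₀ : W.K) ^ ν)⁻¹ • (X.act g₀).toLinearMap) f (j v) =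
        -aeval (((χ g₀ : W.K) ^ ν)⁻¹ • (X.act g₀).toLinearMap) f a :=
      (neg_eq_of_add_eq_zero_right h2).symm
    rw [h5]
    exact A.neg_mem h3
  intro v
  have hv : v ∈ Submodule.span K₀ S := by rw [htop]; exact Submodule.mem_top
  induction hv using Submodule.span_induction with
  | mem v hv => exact key v hv
  | zero => rw [map_zero]
  | add x y _ _ hx hy => rw [map_add, hx, hy, add_zero]
  | smul c x _ hx => rw [map_smul, hx, smul_zero]

end Pool.Agent.Y134.GT
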