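import Pool.Agent.Y134.GT.Geo

/-!
# The generalized Tate conjecture and the Tate conjecture
-/

set_option autoImplicit false

universe u

namespace Pool.Agent.Y134.GT

open Polynomial Module Pool.Agent.Y130 Pool.Agent.TH125.Gal Pool.Agent.TH118.SG
open Pool.Agent.H914 Pool.Agent.H914.VarClass Pool.Agent.H914.VarClass.Obj
  Pool.Agent.H914.WeilCohomology Pool.Agent.H281R3.HT Pool.Agent.W552 Pool.Agent.Y134.TF
  Pool.Agent.Y134.UL

variable {k : Type u} [Field k] {𝒱 : VarClass k} {ops : CycleOps 𝒱}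
  {W : WeilCohomology.{u, 0} ops} {Γ : Type} [Group Γ]

theorem proj_alg {X : 𝒱.Obj} {a : W.H X} (ha : a ∈ algSpan W X) (i : ℕ) :
    (∃ j, i = 2 * j ∧ proj (W.isInternal X) i a ∈ Submodule.span W.K (algClasses W X j)) ∨
      (Odd i ∧ proj (W.isInternal X) i a = 0) := by
  rcases Nat.even_or_odd i with ⟨j, hj⟩ | hodd
  · left
    refine ⟨j, by omega, ?_⟩
    induction ha using Submodule.span_induction with
    | mem a ha =>
      obtain ⟨l, hl⟩ := Set.mem_iUnion.1 ha
      by_cases hlj : l = j
      · subst hlj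
        have hl' := alg_gr hl
        rw [show 2 * l = i by omega] at hl'
        rw [proj_same _ hl']
        exact Submodule.subset_span hl
      · rw [proj_ne _ (alg_gr hl) (by omega)]
        exact Submodule.zero_mem _
    | zero => rw [map_zero]; exact Submodule.zero_mem _
    | add x y _ _ hx hy => rw [map_add]; exact Submodule.add_mem _ hx hy
    | smul q x _ hx => rw [map_smul]; exact Submodule.smul_mem _ _ hx
  · right
    refine ⟨hodd, ?_⟩
    induction ha using Submodule.span_induction with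
    | mem a ha =>
      obtain ⟨l, hl⟩ := Set.mem_iUnion.1 ha
      rw [proj_ne _ (alg_gr hl)]
      obtain ⟨m, hm⟩ := hodd
      omega
    | zero => rw [map_zero]
    | add x y _ _ hx hy => rw [map_add, hx, hy, add_zero]
    | smul q x _ hx => rw [map_smul, hx, smul_zero]

theorem coniveau_gr {χ : Γ →* W.Kˣ} {X : GVar W Γ} {Fr : Set Γ} (i ν : ℕ) :
    coniveau χ X Fr i ν ≤ W.gr X.X i := sSup_le fun _ hU => hU.1

theorem coniveau_even {χ : Γ →* W.Kˣ} {X : PVar W Γ} {Fr : Set Γ} (h : Level χ X Fr) (j ν : ℕ)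
    (hν : 1 ≤ ν) : coniveau χ X.toGVar Fr (2 * j) ν ≤
      Submodule.span W.K (algClasses W X.X j) := fun _ hx =>
  algSpan_gr (coniveau_le h _ ν hν hx) (coniveau_gr _ _ hx)

theorem coniveau_odd {χ : Γ →* W.Kˣ} {X : PVar W Γ} {Fr : Set Γ} (h : Level χ X Fr) {i : ℕ}
    (hi : Odd i) (ν : ℕ) (hν : 1 ≤ ν) : coniveau χ X.toGVar Fr i ν = ⊥ := by
  rw [eq_bot_iff]
  intro x hx
  rw [Submodule.mem_bot]
  rcases proj_alg (coniveau_le h _ ν hν hx) i with ⟨j, hj, -⟩ | ⟨-, h1⟩
  · obtain ⟨m, hm⟩ := hi
    omega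
  · rwa [proj_same _ (coniveau_gr _ _ hx)] at h1

theorem tate {χ : Γ →* W.Kˣ} {X : PVar W Γ} {Fr : Set Γ} (h : Level χ X Fr)
    (hpos : 0 < X.X.dim) : TateConjecture χ X.toGVar := by
  have h' := h
  obtain ⟨hG, hP, ⟨A, hA, hAP, ho⟩, -, -⟩ := h'
  rintro j c hc ⟨Δ₁, hΔ₁, hfix⟩
  refine algSpan_gr ?_ hc
  by_cases hj : 2 * j = X.X.dim
  · -- the middle degree
    set Δ := Δ₁.normalCore with hΔ
    have hn : Δ.Normal := Δ₁.normalCore_normal
    have hΔf : Δ.FiniteIndex := inferInstance
    set U : Submodule W.K (W.H X.X) := Submodule.span W.K {x | ∃ g, x = X.act g c} with hU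
    have hcU : c ∈ U := Submodule.subset_span ⟨1, by rw [map_one, AlgEquiv.one_apply]⟩
    suffices hUle : U ≤ coniveau χ X.toGVar Fr (2 * j) j from
      coniveau_le h (2 * j) j (by omega) (hUle hcU)
    refine le_sSup ⟨?_, ?_, ?_⟩
    · rw [hU, Submodule.span_le]
      rintro _ ⟨g, rfl⟩
      exact hG.gr_mem g _ c hc
    · intro g x hx
      induction hx using Submodule.span_induction with
      | mem x hx =>
        obtain ⟨g', rfl⟩ := hx
        exact Submodule.subset_span ⟨g * g', by rw [map_mul, AlgEquiv.mul_apply]⟩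
      | zero => rw [map_zero]; exact Submodule.zero_mem _
      | add x y _ _ hx hy => rw [map_add]; exact Submodule.add_mem _ hx hy
      | smul q x _ hx => rw [map_smul]; exact Submodule.smul_mem _ _ hx
    · intro s _
      obtain ⟨m, hm, -, hmΔ⟩ := Δ.exists_pow_mem_of_index_ne_zero hΔf.index_ne_zero s
      refine ⟨Polynomial.X ^ m - Polynomial.C 1, monic_X_pow_sub_C (1 : ℤ) (by omega),
        fun x hx => ?_⟩
      have h1 : ∀ x ∈ U, X.act (s ^ m) x = (χ (s ^ m) : W.K) ^ j • x := by
        intro x hx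
        induction hx using Submodule.span_induction with
        | mem x hx =>
          obtain ⟨g, rfl⟩ := hx
          have h2 : g⁻¹ * s ^ m * g ∈ Δ₁ := by
            have := hn.conj_mem _ hmΔ g⁻¹
            rw [inv_inv] at this
            exact Δ₁.normalCore_le this
          have h3 : s ^ m * g = g * (g⁻¹ * s ^ m * g) := by group
          rw [← AlgEquiv.mul_apply, ← map_mul, h3, map_mul, AlgEquiv.mul_apply, hfix _ h2,
            map_smul]
          congr 2
          rw [map_mul, map_mul, map_inv, mul_comm (χ g)⁻¹, inv_mul_cancel_right]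
        | zero => rw [map_zero, smul_zero]
        | add x y _ _ hx hy => rw [map_add, hx, hy, smul_add]
        | smul q x _ hx => rw [map_smul, hx, smul_comm]
      have h2 : ∀ n : ℕ, ∀ x : W.H X.X,
          ((((χ s : W.K) ^ j)⁻¹ • (X.act s).toLinearMap) ^ n) x =
            ((χ (s ^ n) : W.K) ^ j)⁻¹ • X.act (s ^ n) x := by
        intro n
        induction n with
        | zero => intro x; simp
        | succ n ih =>
          intro x
          rw [pow_succ, Module.End.mul_apply, ih, LinearMap.smul_apply]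
          change ((χ (s ^ n) : W.K) ^ j)⁻¹ • X.act (s ^ n) (((χ s : W.K) ^ j)⁻¹ • X.act s x) = _
          rw [map_smul, smul_smul, ← AlgEquiv.mul_apply, ← map_mul, ← pow_succ]
          congr 1
          rw [pow_succ s n, map_mul χ, Units.val_mul, mul_pow, mul_inv]
      rw [map_sub, map_pow, aeval_X, aeval_C, map_one, LinearMap.sub_apply,
        Module.End.one_apply, h2, h1 x hx, smul_smul, inv_mul_cancel₀ (pow_ne_zero _ (Units.ne_zero _)), one_smul,
        sub_self]
  · -- the other degrees
    have h1 : c ∈ A ⊔ X.P := by rw [hAP]; exact Submodule.mem_top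
    obtain ⟨a, ha, p, hp, hap⟩ := Submodule.mem_sup.1 h1
    have h2 : proj (W.isInternal X.X) (2 * j) c = proj (W.isInternal X.X) (2 * j) a := by
      rw [← hap, map_add, proj_ne _ (hP hp) (by omega), add_zero]
    rw [proj_same _ hc] at h2
    rcases proj_alg (hA ha) (2 * j) with ⟨j', hj', h3⟩ | ⟨h3, -⟩
    · rw [h2]
      exact Submodule.span_mono (Set.subset_iUnion _ _) h3
    · obtain ⟨m, hm⟩ := h3
      omega

end Pool.Agent.Y134.GT
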